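import Pool.Agent.H71.WE.Targets

/-!
wee_modules, TAU: the theorem for graphs with few vertices of odd total degree
-/

set_option autoImplicit false

namespace Pool.Agent.H75.WE

open Finset Pool.Agent.H71.WE

/-- The sum over the vertices of the number of ends of the demands. -/
theorem sum_tk {V I : Type} [Fintype V] [DecidableEq V] (a b : I → V) (J : Finset I) :
    ∑ v, tk a b J v = 2 * J.card := by
  unfold tk
  rw [sum_add_distrib, ← card_eq_sum_card_fiberwise (f := a) (fun i _ => mem_univ (a i)),
    ← card_eq_sum_card_fiberwise (f := b) (fun i _ => mem_univ (b i))]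
  ring

/-- The number of ends of two families of demands. -/
theorem tk_sum {V I : Type} [Fintype V] [DecidableEq V] (a b : I → V) (J : Finset I)
    (O : Finset V) (m : ℕ) (e : Fin m ⊕ Fin m ≃ O) (v : V) :
    tk (Sum.elim a fun j => (e (.inl j)).1) (Sum.elim b fun j => (e (.inr j)).1)
      (J.disjSum univ) v = tk a b J v + if v ∈ O then 1 else 0 := by
  classical
  have h : ∑ j, (if (e (.inl j)).1 = v then 1 else 0) + ∑ j, (if (e (.inr j)).1 = v then 1 else 0)
      = if v ∈ O then 1 else 0 := by
    rw [← Fintype.sum_sum_type (fun z : Fin m ⊕ Fin m => if (e z).1 = v then 1 else 0),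
      Equiv.sum_comp e (fun w : O => if w.1 = v then 1 else 0)]
    by_cases hv : v ∈ O
    · rw [if_pos hv, sum_eq_single (⟨v, hv⟩ : O)]
      · simp
      · intro w _ hw
        rw [if_neg fun h => hw (Subtype.ext h)]
      · intro h
        exact absurd (mem_univ _) h
    · rw [if_neg hv]
      refine sum_eq_zero fun w _ => ?_
      rw [if_neg fun (h : w.1 = v) => hv (h ▸ w.2)]
  unfold tk
  rw [card_filter, card_filter, card_filter, card_filter, sum_disjSum, sum_disjSum, ← h]
  simp only [Sum.elim_inl, Sum.elim_inr]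
  exact add_add_add_comm _ _ _ _

theorem pf_TAU (h1 : T_D) (h2 : T_CUX) : T_TAU := by
  classical
  intro V E I _ _ _ _ G A a b J k hE hJ
  set O : Finset V := univ.filter (fun v : V => Odd (cn G A {v} + tk a b J v)) with hO
  have hcn : cn G A univ = 0 := by
    unfold cn
    rw [card_eq_zero, filter_eq_empty_iff]
    intro e _ h
    unfold Cr at h
    simp at h
  have hev : Even O.card := by
    rw [hO, ← even_sum_iff_even_card_odd, sum_add_distrib, sum_tk]
    have h3 := (h2 V E G A).2.2 univ
    rw [hcn, zero_add] at h3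
    exact h3.add (even_two_mul _)
  obtain ⟨m, hm⟩ := hev
  have e : Fin m ⊕ Fin m ≃ O := Fintype.equivOfCardEq (by simp [hm])
  have hJ' : (J.disjSum (univ : Finset (Fin m))).card = J.card + m := by
    rw [card_disjSum, card_univ, Fintype.card_fin]
  obtain ⟨F, hF1, hF2, hF3⟩ := h1 (2 * k) V E (I ⊕ Fin m) G A
    (Sum.elim a fun j => (e (.inl j)).1) (Sum.elim b fun j => (e (.inr j)).1)
    (J.disjSum univ) ⟨even_two_mul k, hE, by rw [hJ']; omega, fun v => by
      rw [tk_sum, ← add_assoc]
      by_cases hv : v ∈ O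
      · rw [if_pos hv]
        exact (mem_filter.1 hv).2.add_one
      · rw [if_neg hv, add_zero]
        by_contra hcon
        exact hv (mem_filter.2 ⟨mem_univ v, Nat.not_even_iff_odd.1 hcon⟩)⟩
  refine ⟨fun i => F (.inl i), fun i hi => hF1 _ (inl_mem_disjSum.2 hi), fun i hi j hj hij =>
    hF2 _ (inl_mem_disjSum.2 hi) _ (inl_mem_disjSum.2 hj) fun h => hij (Sum.inl.inj h),
    fun i hi => hF3 _ (inl_mem_disjSum.2 hi)⟩

end Pool.Agent.H75.WE
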